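import Pool.Agent.X271.TrMain

/-!
# Approximation of determinantal varieties over all perfectoid fields

Let `K` be a perfectoid field of characteristic `0` and residue characteristic `p`, `E = K♭` its tilt, `C`
the completion of an algebraic closure of `K`, and `F = C♭` its tilt, which contains `E`. The structures
`Tilting p C F` and `BaseField T K E` of the starting files consist of the absolute values, of the map
`x ↦ x♯` from `F` to `C`, of Fontaine's map `θ` from `W(O_F)` to `O_C`, and of the well-known facts that `θ`
is surjective on `W(O_F)` and maps `W(O_E)` onto `O_K`, that `E` is perfect and contains an element of
absolute value `|p|`. Every perfectoid field `K` gives such data, and nothing else is used.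

A closed subset of `ℙ^n` is given by the set of the points over `C` (or `F`) of its cone. `IsConeOver K X`:
`X` is closed and defined over `K`. `DimGE X d`, `DimLEOver K X d`: the dimension is at least `d` (any `d` forms
have a common zero on it), at most `d` (some `d + 1` forms over `K` have none). `Approximable T K E X d` is
Q1 for `X`, if `d` is its dimension: for all homogeneous `P 1, ..., P r` over `K` of degrees
`D 1, ..., D r` which vanish on `X` and all `ε > 0` there is a closed `Y` of dimension `d` in `ℙ^n_E`, defined
over `E`, such that `|P k (y♯)| ≤ ε ‖y‖ ^ D k` for all points `y` of `Y` over `F` and all `k`.

Theorem. Let `M` be a matrix with `a` rows and `b + 1 ≤ a` columns, `b > 0`, of homogeneous polynomials over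
`K` in `n + 1` variables, such that the degree of `M i j` is `α i - β j` if this is positive, and `M i j = 0`
if it is not positive. Suppose that `α i - β j` is positive on the diagonals `0 ≤ i - j ≤ a - (b + 1)`
(the diagonals which meet all columns). Let `X = Degen C M` be the set of the points where the columns of `M`
are linearly dependent (that is, where all maximal minors vanish), and suppose that the dimension of `X` is
at most the expected dimension `d = n - (a - b)`. Then `X` is closed, defined over `K`, of dimension `d`,
and Q1 holds for `X`, and more generally for every closed subset of dimension `d` which contains `X`.

Remarks (not part of the formal statement). If the degrees `α` and `β` are in non-decreasing order then the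
condition on the diagonals is a consequence of the condition on the dimension: if `α j ≤ β j` then
the entries in the rows `≤ j` of the columns `≥ j` vanish, so that the codimension of the locus where
the columns `≥ j` are dependent is at most `a - b - 1`. A matrix with constant entries different from `0` can
be reduced to a smaller one. So the theorem holds for all homogeneous matrices with maximal minors
of the expected codimension, that is for all standard determinantal varieties. By the theorem of
Hilbert and Burch this contains all arithmetically Cohen-Macaulay subschemes of codimension `2`
of `ℙ^n` over `K` (`a = b + 2`; for `b = 0` they are complete intersections): all arithmetically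
Cohen-Macaulay curves in `ℙ^3`, such as the smooth curves of degree `6` and genus `3` on no quadric, all
such surfaces in `ℙ^4`, such as the Bordiga surfaces, and all such threefolds in `ℙ^5`; and with two
columns (`b = 1`) the rational normal scrolls and all varieties of the expected dimension given by the
2 × 2 minors of a matrix with two rows. If all entries are of positive degree then general ones
of codimension two are smooth for `n ≤ 5`.

The hand-in `MultiprojectiveImages` contains the case that all `β j` are equal, since `X` is then
the image of the complete intersection `∑ M i j (z) v_j = 0` in `ℙ^n × ℙ^b`. In general this is a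
complete intersection in a projective bundle `ℙ(⊕ O(-β j))` over `ℙ^n`, a toric variety, to which Scholze's
theorem on toric varieties may be applied; we do not know a reference for `X` itself.

Proof. Let `g(x_0, ..., x_b)` be a form over `E` which approximates `x_0 + ... + x_b`, and let `Y_g` be the set
of the matrices `m` over `F` such that `g(m_{i0} v_0, ..., m_{ib} v_b) = 0` for some `v ≠ 0` and all `i`. It is
closed, stable under the scalings of the rows and of the columns, its dimension is
`(a + 1) b - 1` (by the starting file `W762.TP.Exc` on products of projective spaces), and the linear
forms `m_{ij} - m_{i+1,j+1}` (inside the band) and `m_{ij}` (outside) have no common zero on it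
(`lin_zero`). So the set of the `y` with `y_{ij} = 0` if `α i ≤ β j`, and `(y_{ij}^{α i - β j})` in `Y_g`, is a
closed cone over `E` with a surjective polynomial map to the affine space of the expected dimension
(`PD_dimGE`), and it approximates the same set for the matrices over `C` with dependent columns
(`good_PD`). `X` is the projection of the intersection of the join of this set and `ℙ^n` with the
hypersurfaces `y_{ij}^{α i - β j} = M_{ij}(z)`, and the stability of Q1 under joins, sections and projections
(`Good.join`, `Good.section`, `Good.powImage`) gives the theorem.
-/

set_option autoImplicit false

namespace Pool.Agent.Results.MP_db3ab1_ag.DeterminantalVarieties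

open MvPolynomial Pool.Agent.Y129.TA Pool.Agent.Y129.TB Pool.Agent.X271.TR

/-- Q1 holds for the degeneracy locus of expected dimension of every homogeneous matrix of forms over
the perfectoid field `K` (the locus where the columns are linearly dependent), with approximating
varieties defined over `E = K♭`. -/
theorem result {p : ℕ} [Fact p.Prime] {C F K E : Type} [Field C] [Field F] [CharP F p] [Field K]
    [Field E] [Algebra K C] [Algebra E F] [IsAlgClosed C] [IsAlgClosed F] (T : Tilting p C F)
    (B : BaseField T K E) {a b n d : ℕ} (hab : b + 1 ≤ a) (hb : 0 < b)
    (M : Fin a → Fin (b + 1) → MvPolynomial (Fin (n + 1)) K) (α : Fin a → ℕ)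
    (β : Fin (b + 1) → ℕ) (hM : ∀ i j, β j < α i → (M i j).IsHomogeneous (α i - β j))
    (hM0 : ∀ i j, α i ≤ β j → M i j = 0)
    (hdiag : ∀ (i : Fin a) (j : Fin (b + 1)), (j : ℕ) ≤ (i : ℕ) →
      (i : ℕ) + (b + 1) ≤ (j : ℕ) + a → β j < α i)
    (hd : a + d = n + b) (hX : DimLEOver K (Degen C M) d) :
    IsConeOver K (Degen C M) ∧ DimGE (Degen C M) d ∧
      ∀ X : Set (Fin (n + 1) → C), Degen C M ⊆ X → Approximable T.toTiltPair K E X d :=
  let g := good_degen T B hab hb M hM hM0 hdiag hd.le hX
  ⟨g.cone, g.ge, fun _ hXX r P D hP hPX => g.app r P D hP fun k x hx => hPX k x (hXX hx)⟩

end Pool.Agent.Results.MP_db3ab1_ag.DeterminantalVarieties
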