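import Pool.Agent.X271.TsMain
import Pool.Agent.X271.TqMain

/-!
# Q1 over a finite extension of a perfectoid field implies Q1 over the field

Let `K` be a perfectoid field of characteristic `0` and residue characteristic `p`, `E = K♭` its tilt, `C`
the completion of an algebraic closure of `K`, and `F = C♭` its tilt, which contains `E`. The structures
`Tilting p C F` and `BaseField T K E` of the starting files consist of the absolute values, of the map
`x ↦ x♯` from `F` to `C`, of Fontaine's map `θ` from `W(O_F)` to `O_C`, and of the well-known facts that `θ`
is surjective on `W(O_F)` and maps `W(O_E)` onto `O_K`, that `E` is perfect and contains an element of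
absolute value `|p|`. Every perfectoid field `K` gives such data.

`GaloisAction T K E Γ` says that the group `Γ` acts on `C` by automorphisms over `K` which preserve the
absolute value, and on `F` such that `(γ y)♯ = γ (y♯)`, and that the elements of `F` fixed by `Γ` are in `E`.
These are well-known facts for the group `Γ` of the continuous automorphisms of `C` over `K` (the
absolute Galois group of `K`): it acts on the tilt, and `C^Γ = K` by the theorem of Ax, Sen and Tate,
so that `F^Γ = K♭`. For a finite extension `K'` of `K` in `C`, `E' = K'♭`, the subgroup `Γ'` of the
automorphisms over `K'` is of finite index and fixes `E'`.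

A closed subset of `ℙ^n` is given by the set of the points over `C` (or `F`) of its cone. `IsConeOver K X`:
`X` is closed and defined over `K`. `DimGE X d`, `DimLEOver K X d`: the dimension is at least `d` (any `d` forms
have a common zero on it), at most `d` (some `d + 1` forms over `K` have none). `Approximable T K E X d` is
Q1 for `X`, if `d` is its dimension: for all homogeneous `P 1, ..., P r` over `K` of degrees
`D 1, ..., D r` which vanish on `X` and all `ε > 0` there is a closed `Y` of dimension `d` in `ℙ^n_E`, defined
over `E`, such that `|P k (y♯)| ≤ ε ‖y‖ ^ D k` for all points `y` of `Y` over `F` and all `k`.
`Generated T K' E'` is the smallest class of closed subsets of projective spaces over `K'` which contains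
the projective spaces and all `X` for which Q1 holds over `K'`, and which is closed under proper
intersections, images, inverse images, products and enlargements (see `StableUnderOperations`).

Theorem. Let `K'` be a finite extension of `K`, and let `X` be closed in `ℙ^n`, defined over `K`, of dimension
`d`. If `X` is in the class `Generated` over `K'`, for example if Q1 holds for `X` over `K'`, then Q1 holds for
`X` over `K`, with `Y` defined over `K♭`.

So Q1 for `X` does not depend on a finite extension of the base field, and is a property of the
forms of `X`. Examples (not part of the formal statement): the forms over `K`, in their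
projective embeddings, of the products of projective spaces and of complete intersections in
Segre-Veronese embeddings which are split by `K'`, such as Severi-Brauer varieties and
their products, the Weil restrictions from `K'` to `K` of complete intersections over `K'` in the
twisted Segre embedding, and the proper intersections of all conjugates over `K` of a variety over
`K'` for which Q1 holds over `K'`.

Proof. If `Y'` is defined over `E'` and approximates `X` then so do its conjugates `γ Y'`, as `X` is defined
over `K` and `(γ y)♯ = γ (y♯)`. Their union `Y` is finite (`orb_cone`), closed and stable under `Γ`, hence
defined over `E` (`closed_descent`, descent for subspaces of `F[x]` which are stable under `Γ`: a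
normalised element of minimal support is fixed by `Γ`). The dimension of `Y` is at most `d` because `Y` is
near `X` (`approx_of_system`).
-/

set_option autoImplicit false

namespace Pool.Agent.Results.MP_db3ab1_ag.FiniteExtensions

open MvPolynomial Pool.Agent.Y129.TA Pool.Agent.Y129.TB Pool.Agent.X271.TQ Pool.Agent.X271.TS

/-- If `X`, defined over the perfectoid field `K`, is in the class generated by the projective spaces
and the known cases of Q1 over a finite extension `K'` of `K` then Q1 holds for `X` over `K`. -/
theorem result {p : ℕ} [Fact p.Prime] {C F K E : Type} [Field C] [Field F] [CharP F p] [Field K]
    [Field E] [Algebra K C] [Algebra E F] [IsAlgClosed C] [IsAlgClosed F] (T : Tilting p C F)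
    (B : BaseField T K E) {Γ : Type} [Group Γ] [MulSemiringAction Γ C] [MulSemiringAction Γ F]
    (A : GaloisAction T.toTiltPair K E Γ) {K' E' : Type} [Field K'] [Field E'] [Algebra K' C]
    [Algebra E' F] [Algebra K K'] [IsScalarTower K K' C] (B' : BaseField T K' E')
    (Γ' : Subgroup Γ) [Γ'.FiniteIndex]
    (hΓ' : ∀ γ ∈ Γ', ∀ e : E', γ • algebraMap E' F e = algebraMap E' F e) {n d : ℕ}
    {X : Set (Fin (n + 1) → C)} (hX : IsConeOver K X) (hd : DimLEOver K X d)
    (h : Generated T.toTiltPair K' E' n X d) : Approximable T.toTiltPair K E X d :=
  let g := Generated.good T B' h
  descend T B A Γ' hΓ' hX hd (DimGE.nonempty g.ge) g.app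

end Pool.Agent.Results.MP_db3ab1_ag.FiniteExtensions
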