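import Pool.Agent.X271.TmFin

/-!
# Approximation of images of complete intersections in products of projective spaces over all
perfectoid fields

Let `K` be a perfectoid field of characteristic `0` and residue characteristic `p`, `E = K♭` its tilt, `C`
the completion of an algebraic closure of `K`, and `F = C♭` its tilt, which contains `E`. Let `π` be
the map from `ℙ^n_F` to `ℙ^n_C`, `π(y_0 : ... : y_n) = (y_0♯ : ... : y_n♯)`. The structure `Tilting p C F`
consists of the absolute values and the map `x ↦ x♯` from `F` to `C`, and of Fontaine's map `θ` from
the Witt vectors `W(O_F)` to `O_C`, with `θ([x]) = x♯`, which is surjective. The structure `BaseField T K E`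
says that `E` is perfect, that it contains an element of absolute value `|p|`, and that `θ` maps `W(O_E)`
onto `O_K`. These are well-known facts for every perfectoid field `K`, and nothing else about
perfectoid fields is used (`K` is not assumed to be algebraically closed).

A closed subset of projective space over `E` is given by the set of the points over `F` of the cone
(`IsConeOver E Y`: `Y` is the zero set in `F^{n+1}` of an ideal of polynomials over `E`, and stable under
the multiplication by scalars). Its dimension is at least `d` if any `d` forms over `F` have a common
zero on it (`DimGE`), and at most `d` if some `d + 1` forms have no common zero on it (`DimLE`, and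
`DimLEOver K` for forms over `K`). `Approximable T K E X d` is the statement of Q1 for `X`, if `d` is the
dimension of `X`: for all homogeneous polynomials `P 1, ..., P r` over `K` of degrees `D 1, ..., D r` which
vanish on `X`, and all `ε > 0`, there is a closed `Y` of dimension `d` in `ℙ^n_E` such that
`|P k (y♯)| ≤ ε ‖y‖ ^ D k` for all points `y` of `Y` over `F` and all `k`.

Theorem. Let `Z` be the set of the common zeros of `c` multihomogeneous polynomials `h_j` over `K`, of
multidegrees `a_j`, in a product `ℙ^{m_1} × ... × ℙ^{m_r}`, and let `X₀ = f(Z) ⊂ ℙ^n`, where `f` is given by
`n + 1` multihomogeneous polynomials over `K` of the same multidegree `D ≠ 0` which have no common zero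
on `Z`. Suppose that the dimension of `X₀` is at most `d`, and that the multidegrees `a_1, ..., a_c` and
`d` copies of `D` can be assigned to the factors such that each is assigned to a factor in which it is
positive, and at most `m_κ` of them to the factor `ℙ^{m_κ}` (`Positive`; this means that the intersection
product of the `c` divisors and `d` times the pullback of a hyperplane is not zero. If `Z` is a complete
intersection, `d = ∑ m_κ - c`, and `X₀` is of dimension `d`, then this is automatic: the
intersection number is the product of the degree of `X₀` and the degree of `Z → X₀`). Then `X₀` is closed,
defined over `K`, of dimension `d`, and Q1 holds for every closed `X` of dimension `d` which contains `X₀`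
(for example if `X₀` is one of its components), in particular for `X₀`.

Examples (not part of the formal statement): all products of projective spaces, of smooth curves in
`ℙ^2` or in `ℙ^1 × ℙ^1`, of hypersurfaces, and of complete intersections, and all complete
intersections in such products, for every embedding in `ℙ^n` over `K` by forms of the same
multidegree, for example for a complete linear system `O(D)`, and for all projections of these; and
all images of such varieties under finite morphisms.

The starting file `AllPerfectoidFields` is the case of one projective space, `r = 1` (there for finite
unions; for the notion `Approximable` it is enough to treat one component), and the starting file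
`ImagesOfCompleteIntersections` is the case `K = ℂ_p`, where `Y` is defined over an algebraically closed
field. For `d ≥ 3` a product of two projective spaces of positive dimension is not the image of a
complete intersection in one projective space (Lefschetz). The new point is that `Y` is defined over
`K♭` for every perfectoid field `K`, as Q1 requires; this is what is needed for the weight-monodromy
conjecture.

Proof. The approximation lemma (`approxW`): for a multihomogeneous `h` over `K` of multidegree `a` and
`ε > 0` there is a multihomogeneous `g` over `E` of multidegree `p^M a` such that `|h(t♯)| ≤ ε` for all zeros
`t` of `g` in the unit ball of `F^N`. Hence (`monE`) for `f` of multidegree `D ≠ 0` there is a polynomial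
`G(z, y)` over `E`, multihomogeneous if `y` has degree `D`, and monic in `y`, with `|y♯ - f(z♯)| ≤ ε` for
its zeros in the unit ball. Let `Y` be the set of the `y` for which there is a point `z` of the product of
projective spaces over `F` with `H_j(z) = 0` and `G_i(z, y_i) = 0`. `Y` is closed (`clo_II`: elimination
theory, Nakayama's lemma) and defined over `E` (`II_cf`: the elimination ideal over `F` is generated by
the one over `E`), and of dimension at least `d` (by the starting file `W762.TP.Exc`). If `z` is
normalised in each factor then so is `y`, up to a bounded factor (`key`), and the Nullstellensatz over
`C` (`small`) gives the estimates.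
-/

set_option autoImplicit false

namespace Pool.Agent.Results.MP_db3ab1_ag.MultiprojectiveImages

open MvPolynomial Pool.Agent.Y129.TA Pool.Agent.Y129.TB Pool.Agent.X271.TN

/-- Q1 holds for every `X` which contains the image `X₀`, of dimension `d`, of the set `Z` of the common
zeros of multihomogeneous polynomials over a perfectoid field `K` in a product of projective spaces,
under a map given by multihomogeneous polynomials over `K` of the same multidegree `D ≠ 0` without
common zeros on `Z`; the approximating varieties are defined over `E = K♭`. -/
theorem result {p : ℕ} [Fact p.Prime] {C F K E : Type} [Field C] [Field F] [CharP F p] [Field K]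
    [Field E] [Algebra K C] [Algebra E F] [IsAlgClosed C] [IsAlgClosed F] (T : Tilting p C F)
    (B : BaseField T K E) {r c n d : ℕ} {m : Fin r → ℕ}
    (h : Fin c → MvPolynomial (Crd m) K) (a : Fin c → Fin r → ℕ) (hh : ∀ j, MultiHom (h j) (a j))
    (f : Fin (n + 1) → MvPolynomial (Crd m) K) (D : Fin r → ℕ) (hf : ∀ i, MultiHom (f i) D)
    (hD : D ≠ 0) (h0 : BaseFree C h f) (hpos : Positive m a D d)
    (hX : DimLEOver K (mimage C h f) d) :
    IsConeOver K (mimage C h f) ∧ DimGE (mimage C h f) d ∧
      ∀ X : Set (Fin (n + 1) → C), mimage C h f ⊆ X → Approximable T.toTiltPair K E X d :=
  main T B hh hf hD h0 hpos hX

end Pool.Agent.Results.MP_db3ab1_ag.MultiprojectiveImages
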