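import Pool.Agent.X271.TqMain

/-!
# Stability of the approximation property under intersections, images, inverse images and products

Let `K` be a perfectoid field of characteristic `0` and residue characteristic `p`, `E = K♭` its tilt, `C`
the completion of an algebraic closure of `K`, and `F = C♭` its tilt, which contains `E`. The structures
`Tilting p C F` and `BaseField T K E` of the starting files consist of the absolute values, of the map
`x ↦ x♯` from `F` to `C`, of Fontaine's map `θ` from `W(O_F)` to `O_C`, and of the well-known facts that `θ`
is surjective on `W(O_F)` and maps `W(O_E)` onto `O_K`, that `E` is perfect and contains an element of
absolute value `|p|`. Every perfectoid field `K` gives such data, and nothing else is used.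

A closed subset of `ℙ^n` is given by the set of the points over `C` (or `F`) of its cone. `IsConeOver K X`:
`X` is closed and defined over `K`. `DimGE X d`, `DimLEOver K X d`: the dimension is at least `d` (any `d` forms
have a common zero on it), at most `d` (some `d + 1` forms over `K` have none). `Approximable T K E X d` is
Q1 for `X`, if `d` is its dimension: for all homogeneous `P 1, ..., P r` over `K` of degrees
`D 1, ..., D r` which vanish on `X` and all `ε > 0` there is a closed `Y` of dimension `d` in `ℙ^n_E`, defined
over `E`, such that `|P k (y♯)| ≤ ε ‖y‖ ^ D k` for all points `y` of `Y` over `F` and all `k`.

`Generated T K E` is the smallest class of closed subsets `X` of projective spaces, with an integer `d`,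

* (`space`) which contains the projective spaces,
* (`known`) and all `X`, defined over `K` and of dimension `d`, for which Q1 holds,

and which is closed under the following operations:

* (`inter`) proper intersections: from `X₁`, `X₂` in `ℙ^n` to `X₁ ∩ X₂`, if it is of dimension at most
  `d = d₁ + d₂ - n ≥ 0`;
* (`image`) images `f(X)` of `X`, where `f` is given by forms over `K` of the same degree `e > 0` without
  common zero on `X` (the dimension of `f(X)` is that of `X`, because `f` is finite on `X`; this appears
  as a hypothesis on the forms over `K`);
* (`preimage`) inverse images `f⁻¹(X)` in `ℙ^m`, where `f` is given by `n + 1` forms over `K` of the same
  degree, if their dimension is at most the expected dimension `m + d - n` (`f` may have base points);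
* (`prod`) products `X₁ × X₂` in the Segre embedding;
* (`super`) passing from `X` to a closed `X'` over `K` of the same dimension which contains `X` (for
  example such that `X` is a component of `X'`).

Theorem. Every `X` in this class is closed, defined over `K`, of dimension `d`, and Q1 holds for `X`.

In other words, the class of the `X` for which Q1 holds is stable under these operations; and starting
with projective spaces alone, Q1 holds for all `X` generated in this way. Examples (not part of
the formal statement): hypersurfaces are inverse images of points of `ℙ^1`, so that complete
intersections (the known case of Scholze), products of them in all Segre-Veronese embeddings, their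
images, joins (intersections of two inverse images under linear projections, which are cones), and
proper intersections of such varieties are in the class; for example the proper intersections of two
Segre varieties in general position, or the varieties of dimension `m - (a - 1)(b - 1)` in `ℙ^m` given by
the 2 × 2 minors of an `a × b` matrix of forms of the same degree, which are inverse images of the Segre
variety `ℙ^{a-1} × ℙ^{b-1}`; they are smooth for general entries if `m < ab`. With
`known` one can add the images of complete intersections in products of projective spaces, of
arbitrary multidegrees (hand-in `MultiprojectiveImages`). The starting file `AllPerfectoidFields`
treats the images of complete intersections in one projective space and their unions.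

Proof. The dimension theory (`rel_exists`): if `u_1, ..., u_d` are forms without common zero on a cone
`Y = V(G)` over the algebraically closed field `F` then the ring `F[x]/(G)` is integral over
`F[u_1, ..., u_d]` (graded Nakayama lemma), hence any `d + 1` functions on `Y` satisfy an algebraic relation
(transcendence degree of the quotient by a prime ideal). Conversely, if the dimension of `Y` is `d` and
`φ_0, ..., φ_d` are forms of the same degree without common zero on `Y` then `φ : Y → F^{d+1}` is
surjective (`surj_of_dim`). So the dimension of `Y` is at least `d` if and only if there is a surjective
polynomial map from the cone to `F^{d+1}`. This gives the dimensions of joins (`dimGE_join`), of the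
inverse images under the power maps `y ↦ y^e` (`powPull_dimGE`), and of Segre products (`segre_dimGE`; the
surjection is the multiplication of polynomials of degrees `≤ d₁` and `≤ d₂`). The other operations
reduce to these three, to sections by forms over `K` (approximated by forms over `E`, starting lemma
`approx`) and to the finite maps `(z, y) ↦ (y_i^e)` (`Good.powImage`), since `(y^e)♯ = (y♯)^e`. The estimates
come from the Nullstellensatz over `C`; the images are defined over `E` by the starting lemma
`image_closed`.
-/

set_option autoImplicit false

namespace Pool.Agent.Results.MP_db3ab1_ag.StableUnderOperations

open MvPolynomial Pool.Agent.Y129.TA Pool.Agent.Y129.TB Pool.Agent.X271.TQ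

/-- Q1 holds for every member of the smallest class of closed subsets of projective spaces over the
perfectoid field `K` which contains the projective spaces and all `X` for which Q1 is known and
is closed under proper intersections, images, inverse images, products and enlargements. -/
theorem result {p : ℕ} [Fact p.Prime] {C F K E : Type} [Field C] [Field F] [CharP F p] [Field K]
    [Field E] [Algebra K C] [Algebra E F] [IsAlgClosed C] [IsAlgClosed F] (T : Tilting p C F)
    (B : BaseField T K E) (n : ℕ) (X : Set (Fin (n + 1) → C)) (d : ℕ)
    (h : Generated T.toTiltPair K E n X d) :
    IsConeOver K X ∧ DimGE X d ∧ DimLEOver K X d ∧ Approximable T.toTiltPair K E X d :=
  let g := Generated.good T B h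
  ⟨g.cone, g.ge, g.le, g.app⟩

end Pool.Agent.Results.MP_db3ab1_ag.StableUnderOperations
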